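import Mathlib
import Pool.Agent.TH118.WC.Final

/-!
# Tate classes on powers of abelian varieties: divisors and determinant (Weil) classes

Let `A` be an abelian variety over a number field (or over a finitely generated field), `V` its
rational Tate module over `ℚ_ℓ`, `ρ` the action of the Galois group `Γ`, `χ` the cyclotomic
character, `ω` the Weil pairing of a polarization.  Let `K` be the algebraic closure of `ℚ_ℓ`,
`X = K ⊗ V`.  The *strongly irreducible* subspaces (predicate `SI`) of `X` or of the powers `X ^ n`
are the minimal nonzero subspaces that are stable under a subgroup of finite index of `Γ`.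

Via the Weil pairing (the form `powForm` on `X ^ n`) the cohomology group
`H^1(A ^ n, K)` is identified with `X ^ n` up to the twist by `χ`.  If `L j` (`j` in a finite set) are
strongly irreducible subspaces of `X ^ n` and the product of the characters `det (L j)` is the power
`χ ^ c`, `2 c = ∑ dim (L j)`, on a subgroup of finite index, then the exterior product of
the lines `Λ^max (L j)` is spanned by a Tate class in `H^{2c}(A ^ n)(c)`.  These *determinant classes*
are the classes of Weil: if a field `E` acts on `A`, then
`Λ_E^max H^1(A)` over `K` is the sum of the lines `Λ^max (X_σ)`, `σ` an embedding of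
`E`.  They are in general not in the ring generated by the divisor classes.

Theorem (no condition on the determinants).  Suppose that for each strongly irreducible `U` in `X` of
dimension at least two there is a place of semistable reduction where the toric rank of `U` (the
rank of `γ - 1` on `U`, `γ` a generator of the tame inertia) is

* one, or
* two, and `U` is self-dual with an alternating pairing, or
* any odd number, `U` is self-dual with an alternating pairing, and the weak Hodge elements generate
  (a consequence of the theorem of Pink on Hodge cocharacters),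

and that `LinesNotSelfDual` and `TwistFree` hold (both only concern the part of type IV; they follow
from Hodge-Tate weights for instance if the endomorphism algebras are imaginary quadratic fields).
Then for all `n` and `m` every Tate class in `H^{2m}(A ^ n, ℚ_ℓ(m))` is a linear combination, over `K`,
of exterior products of Tate classes of degree two and of determinant classes; in these
determinant classes no `L i` is dual to an `L j` (in particular they are not self-dual).

By the theorem of Faltings the Tate classes of degree two are combinations of divisor classes.  So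
the Tate conjecture for all powers of such an `A` is equivalent to the algebraicity of the
determinant classes, and it holds when these are known to be algebraic (Markman: Weil classes on
abelian fourfolds, and on abelian sixfolds of split Weil type).
-/

namespace Pool.Agent.Results.MP_938ce2_ag.DeterminantClasses

open Module TensorProduct Pool.Agent.H204R3.SP Pool.Agent.H204R3.GP Pool.Agent.W522.U
open Pool.Agent.TH118.WC

theorem result (ℓ : ℕ) [Fact ℓ.Prime]
    {V : Type} [AddCommGroup V] [Module ℚ_[ℓ] V] [FiniteDimensional ℚ_[ℓ] V]
    {Γ : Type} [Group Γ] (ρ : Representation ℚ_[ℓ] Γ V) (χ : Γ →* ℚ_[ℓ])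
    (ω : V →ₗ[ℚ_[ℓ]] V →ₗ[ℚ_[ℓ]] ℚ_[ℓ]) (halt : ∀ v, ω v v = 0)
    (hnondeg : ∀ u, (∀ v, ω v u = 0) → u = 0)
    (hω : ∀ s u v, ω (ρ s u) (ρ s v) = χ s * ω u v)
    (hss : FiniteIndexSemisimple ρ)
    (htoric : Pool.Agent.TH115.Toric.HasToricPlaces (bcr ρ (AlgebraicClosure ℚ_[ℓ]))
      (bcc χ (AlgebraicClosure ℚ_[ℓ])))
    (hlines : LinesNotSelfDual (bcr ρ (AlgebraicClosure ℚ_[ℓ])) (bcc χ (AlgebraicClosure ℚ_[ℓ])))
    (htwist : TwistFree (bcr ρ (AlgebraicClosure ℚ_[ℓ])) (bcc χ (AlgebraicClosure ℚ_[ℓ]))) :
    TateGeneratedByWeil (AlgebraicClosure ℚ_[ℓ]) ρ χ ω := by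
  intro n m f hf
  have hnd : ∀ u, (∀ v, bcb (AlgebraicClosure ℚ_[ℓ]) ω u v = 0) → u = 0 :=
    fun u hu => bcb_nondeg_left ω hnondeg (left_nondeg ω halt hnondeg) u hu
  have hinv := bcb_inv (Ω := AlgebraicClosure ℚ_[ℓ]) ρ χ ω hω
  exact classes_of_tensors (AlgebraicClosure ℚ_[ℓ]) ρ χ (bcb (AlgebraicClosure ℚ_[ℓ]) ω) hnd hinv
    (fun φ hφ => toric_det (bcb (AlgebraicClosure ℚ_[ℓ]) ω) hnd hinv htoric hlines htwist
      (hasProj_bcr ρ _ hss) φ hφ) f hf

end Pool.Agent.Results.MP_938ce2_ag.DeterminantClasses
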