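import Mathlib
import Pool.Agent.TH127.SC.Char0

/-!
# The Tate conjecture for all powers of an abelian variety from one Frobenius polynomial with good
# classes of embeddings

Let `A` be an abelian variety over a number field, of any dimension and with arbitrary
endomorphisms. Suppose that for ONE place of good reduction, with residue field of `p ^ a` elements,
the characteristic polynomial of the Frobenius element is the product of the minimal polynomials of
Weil numbers `π i` which generate CM fields `F i`. Nothing is assumed on the slopes of the `π i`.

Two complex embeddings `x`, `y` of the fields `F i` are *flipped* if some automorphism of `ℂ` fixes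
one of them and conjugates the other, or maps `x` to `y` and `y` to the complex conjugate of `x`. The
*classes* are those of the equivalence relation generated by not being flipped. A class is *good* if
its elements are translates of each other under the automorphisms of `ℂ`, and if it consists of `b`
pairs of conjugate embeddings where `b` is `1` or a prime number, or any two of the pairs can be moved
to any two others and `b` is odd or `b - 1` is prime or the same is true for any three pairs.

`GoodCondition`: all classes are good, and

* (`Separated`) different embeddings of CM subfields `T i`, `T i'` of the `F i` (`T i = T i'` if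
  `i = i'`) never map positive powers of the norms of the `π i`, normalised to absolute value one, to
  the same complex number; or
* the `F i` have no proper CM subfields and are pairwise non-isomorphic, and no `π i ^ 2 / p ^ a` is a
  root of unity.

Then for all primes `ℓ ≠ p` all Tate classes in the `ℓ`-adic cohomology of all powers of `A` are
linear combinations of wedge products of Tate classes of degree two; by the theorem of Faltings
these are classes of divisors. So the Tate conjecture holds for all powers of `A`.

For example it holds if the Frobenius polynomial at one place is irreducible and defines a CM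
field `E` of degree `2 n` without proper CM subfields, if the reduction is not supersingular, and if
`n` is `1` or a prime number or a product of two prime numbers, and in the last case the embeddings of
`E` do not form one class.

In the Lean statement `V` is the rational Tate module with the action `ρ` of the Galois group, `ω`
is the Weil pairing of a polarization, `χ` is the cyclotomic character and `γ` the Frobenius
element.
-/

namespace Pool.Agent.Results.MP_938ce2_ag.FrobeniusGoodClasses

open NumberField Module Pool.Agent.H204R3.GP IntermediateField Pool.Agent.TH127.SC

theorem result (p : ℕ) [Fact p.Prime] (a : ℕ) (ha : 0 < a) :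
    (∀ (ℓ : ℕ) [Fact ℓ.Prime] {ι : Type} [Fintype ι] (F : ι → Type) [∀ i, Field (F i)]
      [∀ i, NumberField (F i)] [∀ i, IsCMField (F i)] (π : ∀ i, F i),
      (∀ i, IsIntegral ℤ (π i)) → (∀ i, ℚ⟮π i⟯ = ⊤) →
      (∀ i, π i * IsCMField.complexConj (F i) (π i) = (p : F i) ^ a) →
      GoodCondition p a π →
      ∀ {V : Type} [AddCommGroup V] [Module ℚ_[ℓ] V] [FiniteDimensional ℚ_[ℓ] V]
        {Γ : Type} [Group Γ] (ρ : Representation ℚ_[ℓ] Γ V) (χ : Γ →* ℚ_[ℓ])
        (ω : V →ₗ[ℚ_[ℓ]] V →ₗ[ℚ_[ℓ]] ℚ_[ℓ]), (∀ v, ω v v = 0) →
        (∀ u, (∀ v, ω v u = 0) → u = 0) → (∀ s u v, ω (ρ s u) (ρ s v) = χ s * ω u v) →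
        FiniteIndexSemisimple ρ → ∀ γ : Γ, χ γ = (p : ℚ_[ℓ]) ^ a →
        (ρ γ).charpoly = ∏ i, (minpoly ℚ (π i)).map (algebraMap ℚ ℚ_[ℓ]) →
        TateGeneratedInDegreeTwo ρ χ) ∧
    ∀ {E : Type} [Field E] [NumberField E] [IsCMField E], SmallDegree E →
      (∀ T : IntermediateField ℚ E, T ≠ ⊤ → IsTotallyReal T) →
      ∀ π : E, (∀ s : ℕ, 0 < s → (π ^ 2 / (p : E) ^ a) ^ s ≠ 1) →
        GoodCondition p a (fun _ : Unit => π) :=
  ⟨fun _ _ _ _ _ _ _ _ _ hint hgen hw hcl _ _ _ _ _ _ ρ χ ω halt hnd hωρ hss γ hχ hγ =>
    tateGenerated_of_classes ha hint hgen hw (Or.inl hcl) ρ χ ω halt hnd hωρ hss γ hχ hγ,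
    fun hE hT π hπ => goodCondition_of_smallDegree hE hT π hπ⟩

end Pool.Agent.Results.MP_938ce2_ag.FrobeniusGoodClasses
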