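import Pool.Agent.TH776.FM.FourMain
import Pool.Agent.TH776.FM.Slopes
import Pool.Agent.TH776.FM.MTDefs
import Pool.Agent.TH776.FL.Main

/-!
# The Tate conjecture for all powers of an abelian variety with trivial Rosati involution, from one
# Frobenius polynomial whose slopes, or differences of conjugate slopes, are rarely prime to some
# prime number

Let `A` be an abelian variety over a number field, of any dimension, all of whose endomorphisms over
the algebraic closure are fixed by the Rosati involution of a polarization (`RosatiTrivial`): for
instance `End(A) = ℤ`, or `A` is simple of type I in the classification of Albert, or a product of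
such varieties without isogenies between them. Suppose that for ONE place of good reduction, with
residue field of `p ^ a` elements, the characteristic polynomial of the Frobenius element is the
product of the minimal polynomials of Weil numbers `π i` which generate CM fields `K i` of any degree,
with any Galois groups. For an embedding `τ` of `K i` in an algebraic closure of `ℚ_p` let `dev τ` be
the deviation `2 v(τ π) - a` of the slope from the middle slope. Suppose:

* (`Independent`) for every `i` some automorphism of the complex numbers conjugates the embeddings of
  `K i` and fixes those of the other `K i'` (no condition for one field);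
* each `π i` has one of the following properties. Let `v` be `dev`, or more generally a combination
  with integral values of `dev` and of one of its conjugates `dev ∘ σ` (`IsPencil`; for instance a
  multiple of the difference `dev ∘ σ - dev`).
  - (`FewValues`) for some prime number `r`, the values prime to `r` of some `v` are those of one pair
    of conjugate embeddings; or the pairs `x`, `y` of embeddings for which the values prime to `r` of
    some `v` are those of `x`, `y` and their conjugates agree simultaneously on no element of the
    maximal real subfield `K⁺` except the rational numbers (for instance if there is one such pair and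
    `K⁺` has no proper subfield except `ℚ`);
  - (`FewEvenValues`) some `v` is odd, except for one pair of conjugate embeddings, or for two pairs
    whose embeddings agree only on `ℚ` in `K⁺` (for two pairs, and `[K : ℚ]` four modulo eight, it is
    also supposed that `K` has no real quadratic subfield);
* if the norm of `π i` to some imaginary quadratic subfield of `K i` is supersingular (`HasWeil`), then
  the degree of `K i` is different from two, four and eight.

Then for all powers of `A` and in all codimensions all Tate classes are linear combinations of
products of Tate classes of degree two, which are classes of divisors by the theorem of Faltings. So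
the Tate conjecture, and also the Hodge conjecture and the conjecture of Mumford and Tate, hold for
all powers of `A`.

Supersingular norms to imaginary quadratic subfields are allowed. They give relations between the
Frobenius eigenvalues: then the reduction of `A` has Tate classes on its powers which are not
generated by divisors (Weil classes), and the rank of the Frobenius torus is smaller than the rank
`dim A + 1` of the group of symplectic similitudes.

Second part: the slopes `0`, `a / 2`, `a`, with the middle slope at one or two pairs of embeddings
only, as above, have the property `FewEvenValues`. For instance: `End(A) = ℤ`, the dimension `g` of `A`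
is three or greater than four, the Frobenius polynomial of `A` at one place is
irreducible and the reduction has `p`-rank `g - 1`; or `g > 4`, the reduction has `p`-rank `g - 2` and
slopes `0`, `1 / 2`, `1`, the field `K⁺` of degree `g` has no proper subfield except `ℚ`.

Idea: a multiplicative relation between the conjugates of `π` is an odd function `c` on the embeddings
which is orthogonal to all Galois translates of `dev`, so also to those of `v`. Modulo `r` this gives
`v(x) c(g x) + v(y) c(g y) = 0` for all `g`, respectively, modulo two, that `c(g x) + c(g y)` does not
depend on `g`. A subfield through which a combination of two relations factors modulo `r`, and the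
hypotheses, show that all relations are multiples of one, whose absolute value is constant: it is a
half system. So there are no nontrivial relations of length four, and the diagonal torus of the
symplectic group normalizes the Lie algebra `𝔤` of the endomorphisms annihilating all Tate classes.
Since the Rosati involution is trivial there are no symmetric Tate forms, and `𝔤` turns out to be
the Lie algebra of the whole centralizer of the endomorphisms in the symplectic Lie algebra
(`Pool.Agent.W516.FT.tate_of_four`), although the Frobenius torus is smaller than a maximal torus.
-/

namespace Pool.Agent.Results.MP_938ce2_ag.TypeOneFewSlopes

open NumberField Module Pool.Agent.H204R3.GP Pool.Agent.W527.TateRing Pool.Agent.TH776.FS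
  Pool.Agent.TH776.FM Pool.Agent.TH776.FL

/-- The Tate conjecture for all powers of an abelian variety with trivial Rosati involution, from one
Frobenius polynomial with few slopes, or differences of conjugate slopes, prime to a prime number. -/
theorem result (p : ℕ) [Fact p.Prime] (a : ℕ) :
    (∀ (ℓ : ℕ) [Fact ℓ.Prime] {ι : Type} [Fintype ι] (X : ι → WeilNumber p a), Independent X →
      (∀ i, FewValues (X i) ∨ FewEvenValues (X i)) →
      (∀ i, HasWeil (X i) → finrank ℚ (X i).K ≠ 2 ∧ finrank ℚ (X i).K ≠ 4 ∧
        finrank ℚ (X i).K ≠ 8) →
      ∀ {V : Type} [AddCommGroup V] [Module ℚ_[ℓ] V] [FiniteDimensional ℚ_[ℓ] V]
        {Γ : Type} [Group Γ] (ρ : Representation ℚ_[ℓ] Γ V) (χ : Γ →* ℚ_[ℓ])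
        (ω : V →ₗ[ℚ_[ℓ]] V →ₗ[ℚ_[ℓ]] ℚ_[ℓ]), IsTateModule ρ χ ω → RosatiTrivial ρ ω →
        ∀ γ : Γ, χ γ = (p ^ a : ℕ) →
          (ρ γ).charpoly = (∏ i, minpoly ℚ (X i).π).map (algebraMap ℚ ℚ_[ℓ]) →
          TateGeneratedInDegreeTwo ρ χ) ∧
    (0 < a → ∀ (X : WeilNumber p a) (x y : X.K →+* PadicAlgCl p), MiddleSlopes X x y →
      FewEvenValues X) :=
  ⟨fun _ _ _ _ _ hind hX hdeg _ _ _ _ _ _ _ _ _ h hR _ hχ hγ =>
    tate_of_rosati h hχ (separable_of_independent hind) hγ (onlyTrivial hX hind hdeg) hR,
    fun ha _ x y h => fewEvenValues_of_middle ha x y h.1 h.2.1 h.2.2⟩

end Pool.Agent.Results.MP_938ce2_ag.TypeOneFewSlopes
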